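import Pool.Agent.W602.GT.Defs

/-!
Sections of multiples of `K_X + Δ` for a pair `(X, Δ)`, in terms of the function field.
-/

set_option autoImplicit false

open FF Pool.Agent.W602.GT

namespace Pool.Agent.TH710.KP

variable (k K : Type) [Field k] [Field K] [Algebra k K]

/-- `ω` is a section of `m (K_X + Δ) + j A`, tested at the prime divisors in `X`: `ω` is an
`m`-canonical form, and its values on the vector fields which are regular at `P` are zero or have
order at least `j ord s - m δ(P)` for some nonzero `s ∈ S`. Here `δ P` is the multiplicity of `Δ`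
at `P` (minus the discrepancy), and `A` is the divisor generated by the finite set `S` of
functions. -/
def PairSec (w : ℕ) (X : Place k K → Prop) (δ : Place k K → ℝ) (S : Finset K) (m j : ℕ)
    (ω : (Fin w → Derivation k K K) → K) : Prop :=
  IsPluri m ω ∧ ∀ P : Place k K, Divisorial w P → X P → ∀ D : Fin w → Derivation k K K,
    (∀ i, DerReg P (D i)) →
      ω D = 0 ∨ ∃ s ∈ S, s ≠ 0 ∧ (j : ℝ) * P.ord s - m * δ P ≤ P.ord (ω D)

/-- `K_X + Δ` is big: for some `m > 0` there are sections of `m (K_X + Δ)` whose ratios contain `w`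
algebraically independent functions. -/
def PairBig (w : ℕ) (X : Place k K → Prop) (δ : Place k K → ℝ) : Prop :=
  ∃ m : ℕ, 0 < m ∧ ∃ ω : Fin (w + 1) → (Fin w → Derivation k K K) → K,
    (∀ j, PairSec k K w X δ {1} m 0 (ω j)) ∧
    ∃ D, ω 0 D ≠ 0 ∧ AlgebraicIndependent k (fun i : Fin w => ω i.succ D / ω 0 D)

/-- `K_X + Δ` is pseudo-effective: there is a divisor `A`, generated by a finite set `S` of
functions, such that for every `N` some multiple `j (N (K_X + Δ) + A)` has a nonzero section. -/
def PairPsef (w : ℕ) (X : Place k K → Prop) (δ : Place k K → ℝ) : Prop :=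
  ∃ S : Finset K, ∀ N : ℕ, ∃ j : ℕ, 0 < j ∧ ∃ ω : (Fin w → Derivation k K K) → K,
    PairSec k K w X δ S (j * N) j ω ∧ ∃ D, ω D ≠ 0

/-- The pair `(X, Δ)` is klt: `X` is the set of the prime divisors of the variety, on which `Δ` is
effective, and `δ P`, for all prime divisors on all models, is minus the discrepancy of `P`; all
discrepancies are greater than `-1`, by a fixed positive amount. -/
structure IsKlt (w : ℕ) (X : Place k K → Prop) (δ : Place k K → ℝ) : Prop where
  eff : ∀ P, Divisorial w P → X P → 0 ≤ δ P
  klt : ∃ ε : ℝ, 0 < ε ∧ ∀ P : Place k K, Divisorial w P → δ P ≤ 1 - ε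

end Pool.Agent.TH710.KP
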