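import Pool.Agent.TH710.KP.Fam
import Pool.Agent.TH710.KP.NP
import Pool.Agent.TH710.ND.Ruled
import Pool.Agent.TH710.ND.Sp

/-!
Klt pairs on varieties given by nested sums of high powers of linear forms: bigness, or lines which
meet the boundary in at most two points.
-/

set_option autoImplicit false

open FF MvPolynomial IntermediateField Pool.Agent.W603.LV Pool.Agent.W603.PV Pool.Agent.W603.GR
  Pool.Agent.W602.GT Pool.Agent.W603.GW Pool.Agent.W603.GX Pool.Agent.W603.GY Pool.Agent.TH710.ND

namespace Pool.Agent.TH710.KP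

variable {k : Type} [Field k] {n : ℕ} {ι κ : Type}

section flow

variable {K : Type} [Field K] [Algebra k K] {Q : κ → MvPolynomial (Fin (n + 1)) k}
  {y : Fin (n + 1) → K} {lq : κ → Fin (n + 1) → k} {C : IntermediateField k K} {c τ : K}
  {z e : Fin (n + 1) → K}

/-- The boundary meets the lines in at most two points. -/
theorem flow_not_psef [CharZero k] (h : FlowData Q y lq C c τ z e) {w : ℕ}
    (htr : Algebra.trdeg k K = w) {dl : Place k K → ℝ}
    (hoff : ∀ P : Place k K, Divisorial w P → ¬ OffAny Q y P → dl P ≤ 0)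
    (hklt : ∃ ε : ℝ, 0 < ε ∧ ∀ P : Place k K, Divisorial w P → dl P ≤ 1 - ε)
    (he : ∀ j j', lin (lq j) e ≠ 0 → lin (lq j') e ≠ 0 →
      lin (lq j) e / lin (lq j) y = lin (lq j') e / lin (lq j') y) :
    ¬ PairPsef k K w (fun _ => True) dl := by
  have hτ0 : τ ≠ 0 := by
    intro h0
    apply h.trans
    rw [h0]
    exact isAlgebraic_zero
  by_cases hall : ∀ j, lin (lq j) e = 0
  · obtain ⟨δ, hδ, hδC, hδtop⟩ := delta_of C h.trans h.top
    refine not_psefB htr δ hτ0 hδ hδtop (fun P hPd hP hτ => hoff P hPd ?_) hklt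
    have hPC : ∀ x ∈ C, x ≠ 0 → P.ord x = 0 := fun x hx h0 => hP x (hδC x hx) h0
    refine h.not_off hPC hτ.ge fun j => ?_
    refine hPC _ ?_ (div_ne_zero (h.lq_ne j) h.c_ne)
    rw [h.lin_u, hall, zero_mul, add_zero]
    exact lin_mem C _ h.z_mem
  · push Not at hall
    obtain ⟨j2, hj2⟩ := hall
    set a := lin (lq j2) z with ha
    set b := lin (lq j2) e with hb
    have haC : a ∈ C := lin_mem C _ h.z_mem
    have hbC : b ∈ C := lin_mem C _ h.e_mem
    set σ := lin (lq j2) y / c with hσ
    have hστ : σ = a + b * τ := h.lin_u _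
    have hτσ : τ = (σ - a) / b := by
      rw [hστ]
      field_simp
      ring
    have hσ0 : σ ≠ 0 := div_ne_zero (h.lq_ne j2) h.c_ne
    have htop : C⟮σ⟯ = ⊤ := by
      rw [eq_top_iff, ← h.top, IntermediateField.adjoin_simple_le_iff]
      rw [hτσ]
      refine div_mem (sub_mem (IntermediateField.mem_adjoin_simple_self _ _) ?_) ?_
      · exact (C⟮σ⟯).algebraMap_mem (⟨a, haC⟩ : C)
      · exact (C⟮σ⟯).algebraMap_mem (⟨b, hbC⟩ : C)
    have htrans : Transcendental C σ := by
      intro halg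
      apply h.trans
      rw [hτσ]
      have h1 : IsAlgebraic C a := isAlgebraic_algebraMap (⟨a, haC⟩ : C)
      have h2 : IsAlgebraic C b := isAlgebraic_algebraMap (⟨b, hbC⟩ : C)
      rw [div_eq_mul_inv]
      exact (halg.sub h1).mul h2.inv
    obtain ⟨δ, hδ, hδC, hδtop⟩ := delta_of C htrans htop
    refine not_psefB htr δ hσ0 hδ hδtop (fun P hPd hP hσP => hoff P hPd ?_) hklt
    have hPC : ∀ x ∈ C, x ≠ 0 → P.ord x = 0 := fun x hx h0 => hP x (hδC x hx) h0
    have hreg : ∀ x ∈ C, Ge P 0 x := fun x hx => by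
      by_cases h0 : x = 0
      · exact Or.inl h0
      · exact Or.inr (hPC x hx h0).ge
    have hτr : 0 ≤ P.ord τ := by
      have h0 : Ge P 0 σ := Or.inr hσP.ge
      have h1 : Ge P 0 (σ - a) := h0.sub (hreg a haC)
      have h2 : Ge P 0 b⁻¹ := hreg _ (inv_mem hbC)
      have h3 := h1.mul h2
      rw [← div_eq_mul_inv, ← hτσ, add_zero] at h3
      exact h3.resolve_left hτ0
    refine h.not_off hPC hτr fun j => ?_
    by_cases hj : lin (lq j) e = 0
    · refine hPC _ ?_ (div_ne_zero (h.lq_ne j) h.c_ne)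
      rw [h.lin_u, hj, zero_mul, add_zero]
      exact lin_mem C _ h.z_mem
    · have hbj : lin (lq j) e ∈ C := lin_mem C _ h.e_mem
      have h5 := he j j2 hj hj2
      have h6 := h.lq_ne j
      have h7 := h.lq_ne j2
      have h8 := h.c_ne
      have h9 : lin (lq j) y / c = (lin (lq j) e / b) * σ := by
        rw [hσ]
        rw [div_eq_div_iff h6 h7] at h5
        field_simp
        linear_combination -h5
      have h10 : lin (lq j) e / b ≠ 0 := div_ne_zero hj hj2
      rw [h9, P.ord_mul h10 hσ0, hPC _ (div_mem hbj hbC) h10, hσP, add_zero]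

end flow

/-- A line through the generic point `y` of `V`, contained in the closure of `V`, which meets the
hypersurfaces `Q_j = 0` in at most two points: the point at infinity and one further point, the same
for all `j`. -/
def LineTwo {K : Type} [Field K] [Algebra k K] (Q : κ → MvPolynomial (Fin (n + 1)) k)
    (y : Fin (n + 1) → K) : Prop :=
  ∃ v : Fin (n + 1) → K, (∃ i j, y i * v j - y j * v i ≠ 0) ∧
    (∀ G : MvPolynomial (Fin (n + 1)) k, IsForm G → val y G = 0 → ∀ t : K,
      val (fun l => y l + t * v l) G = 0) ∧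
    ∃ b : K, ∀ j, (∀ t, val (fun l => y l + t * v l) (Q j) = val y (Q j)) ∨
      ∀ t, val (fun l => y l + t * v l) (Q j) = val y (Q j) * (1 + b * t) ^ (Q j).totalDegree

/-- A line through the generic point `y` of `V`, contained in the closure of `V`, which meets each
hypersurface `Q_j = 0` in one point, and the union of all of them in at least three points. -/
def LineThree {K : Type} [Field K] [Algebra k K] (Q : κ → MvPolynomial (Fin (n + 1)) k)
    (y : Fin (n + 1) → K) : Prop :=
  ∃ v : Fin (n + 1) → K, (∃ i j, y i * v j - y j * v i ≠ 0) ∧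
    (∀ G : MvPolynomial (Fin (n + 1)) k, IsForm G → val y G = 0 → ∀ t : K,
      val (fun l => y l + t * v l) G = 0) ∧
    ∃ b : κ → K, (∀ j t, val (fun l => y l + t * v l) (Q j) =
      val y (Q j) * (1 + b j * t) ^ (Q j).totalDegree) ∧
      ∃ j1 j2 j3, b j1 ≠ b j2 ∧ b j1 ≠ b j3 ∧ b j2 ≠ b j3

theorem big_zero {K : Type} [Field K] [Algebra k K] {X : Place k K → Prop}
    {dl : Place k K → ℝ} (hdl : ∀ P, Divisorial 0 P → X P → 0 ≤ dl P) :
    PairBig k K 0 X dl := by
  refine ⟨1, one_pos, fun _ _ => 1, fun j => ⟨fun A D => ?_, fun P hP hX D _ => ?_⟩,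
    fun i => i.elim0, one_ne_zero, ?_⟩
  · rw [Matrix.det_isEmpty, one_pow, one_mul]
  · refine Or.inr ⟨1, Finset.mem_singleton_self _, one_ne_zero, ?_⟩
    have h1 : P.ord (1 : K) = 0 := by
      have := P.ord_pow (1 : K) 2
      rw [one_pow] at this
      push_cast at this
      omega
    rw [h1]
    push_cast
    have := hdl P hP hX
    linarith
  · rw [algebraicIndependent_empty_type_iff]
    exact (algebraMap k K).injective

/-- A line through the point `y`, in the variety `F_i = 0`, on which each `Q_j` is a constant times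
a power of a linear form. -/
def LineEach {K : Type} [Field K] [Algebra k K] (F : ι → MvPolynomial (Fin (n + 1)) k)
    (Q : κ → MvPolynomial (Fin (n + 1)) k) (y : Fin (n + 1) → K) : Prop :=
  ∃ v : Fin (n + 1) → K, (∃ i j, y i * v j - y j * v i ≠ 0) ∧
    (∀ i, ∀ t : K, val (fun l => y l + t * v l) (F i) = 0) ∧
    ∃ b : κ → K, ∀ j t, val (fun l => y l + t * v l) (Q j) =
      val y (Q j) * (1 + b j * t) ^ (Q j).totalDegree

/-- **Bigness.** -/
theorem big_or_line [IsAlgClosed k] [CharZero k]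
    {F : ι → MvPolynomial (Fin (n + 1)) k} {Q : κ → MvPolynomial (Fin (n + 1)) k} {s N H : ℕ}
    (hF : ∀ i, IsNested s N H (F i)) (hQ : ∀ j, IsNested s N H (Q j)) (hN : bnd n s H ≤ N)
    {K : Type} [Field K] [Algebra k K] {w : ℕ} {y : Fin (n + 1) → K} (hy0 : y ≠ 0)
    (halg : Algebra.IsAlgebraic (coords k y) K) (hdim : Algebra.trdeg k K = w)
    (hmem : ∀ i, val y (F i) = 0) (hoffQ : ∀ j, val y (Q j) ≠ 0)
    {X : Place k K → Prop} {dl : Place k K → ℝ}
    (heff : ∀ P, Divisorial w P → X P → 0 ≤ dl P)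
    (hover : ∀ P : Place k K, Divisorial w P → X P → OffAny Q y P → 1 - 1 / (N : ℝ) ≤ dl P) :
    PairBig k K w X dl ∨ LineEach F Q y := by
  classical
  have hN1 : 1 ≤ N := le_trans (by unfold bnd; omega) hN
  have hQh : ∀ j, IsForm (Q j) := fun j => (hQ j).form
  have hQne : ∀ j, Q j ≠ 0 := by
    intro j h0
    apply hoffQ j
    rw [h0]
    unfold Pool.Agent.W602.GT.val
    rw [map_zero]
  have hhom : ∀ j, (Q j).IsHomogeneous (Q j).totalDegree := by
    intro j
    obtain ⟨d, hd⟩ := hQh j
    rw [hd.totalDegree (hQne j)]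
    exact hd
  have hwn := dim_le hy0 halg hdim
  obtain ⟨o, ho⟩ := exists_o hhom hy0 hoffQ
  let G : CFam k K → Prop := fun A => ∃ c',
    Gen (OffAny Q y) N (2 * s) ((H + 1) * (2 * s * (2 * s))) o IsLin y c' A
  have hGok : ∀ A, G A → A.Ok (OffAny Q y) N (2 * s) ((H + 1) * (2 * s * (2 * s))) := by
    rintro A ⟨c', hA⟩
    exact hA.ok.1.mono hA.ok.2
  have hNw : w * ((H + 1) * (2 * s * (2 * s)) * ((2 * s + 1) * tn (2 * s - 1))) + 1 ≤ N :=
    le_trans (Nat.succ_le_succ (Nat.mul_le_mul_right _ hwn)) hN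
  rcases Nat.eq_zero_or_pos w with hw | hw
  · subst hw
    exact Or.inl (big_zero heff)
  rcases fam_dichB hw hdim (OffAny Q y) (Nat.le_of_succ_le hNw) G hGok heff hover with
    h | ⟨D, hD0, hD1⟩
  · exact Or.inl h
  · right
    obtain ⟨lq, hG, -⟩ := good_of (W := consts D) hF hQ hN1 hmem hoffQ ho
      (fun z d hd h => consts_root D z d hd h) (fun c' A hA i a b => hD1 A ⟨c', hA⟩ i a b)
    have hin : ∀ t : K, InV (PrC (consts D) y) y (fun l => y l + t * D (y l)) := by
      intro t
      have key : ∀ l : Fin (n + 1) → k, lin l (fun i => y i + t * D (y i)) =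
          lin l y + t * D (lin l y) := by
        intro l
        have h1 := lin_add_smul l y (fun i => D (y i)) 1 t
        simp only [one_mul] at h1
        rw [h1, lin_der]
      refine ⟨fun l hl => by rw [key, hl, map_zero, mul_zero, add_zero], ?_⟩
      rintro ⟨l, l'⟩ ⟨h1, h2, h3⟩
      change lin l (fun i => y i + t * D (y i)) = lin l y / lin l' y *
        lin l' (fun i => y i + t * D (y i))
      have h1' : lin l y ≠ 0 := h1
      have h2' : lin l' y ≠ 0 := h2
      have h3' : D (lin l y / lin l' y) = 0 := h3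
      rw [D.leibniz_div, smul_eq_zero, or_iff_right (pow_ne_zero 2 (inv_ne_zero h2'))] at h3'
      simp only [smul_eq_mul] at h3'
      rw [key, key]
      field_simp
      linear_combination t * h3'
    refine ⟨fun l => D (y l), moves halg hD0, fun i t => ?_, fun j => D (lin (lq j) y) /
      lin (lq j) y, fun j t => ?_⟩
    · exact hG.van K _ (hin t) i
    · have h1 := hG.lq_val K _ (hin t) j
      have h2 := hG.lq_ne j
      rw [h1]
      have h3 := lin_add_smul (lq j) y (fun i => D (y i)) 1 t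
      simp only [one_mul] at h3
      rw [h3, lin_der]
      change val y (Q j) / lin (lq j) y ^ (Q j).totalDegree *
        (lin (lq j) y + t * D (lin (lq j) y)) ^ (Q j).totalDegree = _
      have h4 : lin (lq j) y + t * D (lin (lq j) y) =
          lin (lq j) y * (1 + D (lin (lq j) y) / lin (lq j) y * t) := by
        field_simp
      rw [h4, mul_pow]
      field_simp

/-- **The dichotomy.** -/
theorem klt_dich [IsAlgClosed k] [CharZero k] [Finite κ]
    {F : ι → MvPolynomial (Fin (n + 1)) k} {Q : κ → MvPolynomial (Fin (n + 1)) k} {s N H : ℕ}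
    (hF : ∀ i, IsNested s N H (F i)) (hQ : ∀ j, IsNested s N H (Q j)) (hN : bnd n s H ≤ N)
    {K : Type} [Field K] [Algebra k K] {w : ℕ} {y : Fin (n + 1) → K} (hy : SubVarQ F Q K w y)
    (hcomp : IsComponentQ F Q y) {X : Place k K → Prop} {dl : Place k K → ℝ}
    (hkl : IsKlt k K w X dl)
    (hoff : ∀ P : Place k K, Divisorial w P → ¬ OffAny Q y P → dl P ≤ 0)
    (hover : ∀ P : Place k K, Divisorial w P → X P → OffAny Q y P → 1 - 1 / (N : ℝ) ≤ dl P) :
    PairBig k K w X dl ∨ (¬ PairPsef k K w (fun _ => True) dl ∧ LineTwo Q y) ∨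
      LineThree Q y := by
  classical
  have hN1 : 1 ≤ N := le_trans (by unfold bnd; omega) hN
  have hQh : ∀ j, IsForm (Q j) := fun j => (hQ j).form
  have hQne : ∀ j, Q j ≠ 0 := by
    intro j h0
    apply hy.off j
    rw [h0]
    unfold Pool.Agent.W602.GT.val
    rw [map_zero]
  have hhom : ∀ j, (Q j).IsHomogeneous (Q j).totalDegree := by
    intro j
    obtain ⟨d, hd⟩ := hQh j
    rw [hd.totalDegree (hQne j)]
    exact hd
  have halg : Algebra.IsAlgebraic (coords k y) K := by
    rw [hy.gen]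
    infer_instance
  have hwn := dim_le hy.ne halg hy.dim
  obtain ⟨o, ho⟩ := exists_o hhom hy.ne hy.off
  let G : CFam k K → Prop := fun A => ∃ c',
    Gen (OffAny Q y) N (2 * s) ((H + 1) * (2 * s * (2 * s))) o IsLin y c' A
  have hGok : ∀ A, G A → A.Ok (OffAny Q y) N (2 * s) ((H + 1) * (2 * s * (2 * s))) := by
    rintro A ⟨c', hA⟩
    exact hA.ok.1.mono hA.ok.2
  have hNw : w * ((H + 1) * (2 * s * (2 * s)) * ((2 * s + 1) * tn (2 * s - 1))) + 1 ≤ N :=
    le_trans (Nat.succ_le_succ (Nat.mul_le_mul_right _ hwn)) hN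
  obtain ⟨i0, hi0'⟩ := Function.ne_iff.1 hy.ne
  have hi0 : y i0 ≠ 0 := hi0'
  rcases Nat.eq_zero_or_pos w with hw | hw
  · subst hw
    exact Or.inl (big_zero hkl.eff)
  rcases fam_dichB hw hy.dim (OffAny Q y) (Nat.le_of_succ_le hNw) G hGok hkl.eff hover with
    h | ⟨D, hD0, hD1⟩
  · exact Or.inl h
  · right
    obtain ⟨lq, hG, hlq⟩ := good_of (W := consts D) hF hQ hN1 hy.mem hy.off ho
      (fun z d hd h => consts_root D z d hd h) (fun c' A hA i a b => hD1 A ⟨c', hA⟩ i a b)
    have hG' : Good F Q y (PrD D y) lq := hG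
    -- the linear form at infinity
    obtain ⟨ls, hls1, hls2⟩ : ∃ ls : Fin (n + 1) → k, lin ls y ≠ 0 ∧
        (Nonempty κ → ∃ j1, ls = lq j1) := by
      by_cases hne : Nonempty κ
      · obtain ⟨j1⟩ := hne
        exact ⟨lq j1, hG.lq_ne j1, fun _ => ⟨j1, rfl⟩⟩
      · exact ⟨Pi.single i0 1, by rw [lin_single]; exact hi0, fun h => absurd h hne⟩
    obtain ⟨C, c, τ, z, e, hfd, h1, h2, h3, h4⟩ := flow_of_der hQh hy hcomp hD0 hG' hls1
    by_cases he : ∀ j j', lin (lq j) e ≠ 0 → lin (lq j') e ≠ 0 →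
        lin (lq j) e / lin (lq j) y = lin (lq j') e / lin (lq j') y
    · left
      refine ⟨flow_not_psef hfd hy.dim hoff hkl.klt he, e, h2, h3, ?_⟩
      by_cases hall : ∀ j, lin (lq j) e = 0
      · refine ⟨0, fun j => Or.inl fun t => ?_⟩
        rw [h4, hall j, zero_div, zero_mul, add_zero, one_pow, mul_one]
      · push Not at hall
        obtain ⟨j2, hj2⟩ := hall
        refine ⟨lin (lq j2) e / lin (lq j2) y, fun j => ?_⟩
        by_cases hj : lin (lq j) e = 0
        · left
          intro t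
          rw [h4, hj, zero_div, zero_mul, add_zero, one_pow, mul_one]
        · right
          intro t
          rw [h4, he j j2 hj hj2]
    · right
      push Not at he
      obtain ⟨j, j', hj, hj', hne⟩ := he
      obtain ⟨j1, hj1⟩ := hls2 ⟨j⟩
      have h5 : lin (lq j1) e = 0 := by
        apply h1
        rw [hj1]
        exact der_div_self D (hG.lq_ne j1)
      refine ⟨e, h2, h3, fun j => lin (lq j) e / lin (lq j) y, fun j t => h4 t j, j1, j, j', ?_,
        ?_, hne⟩
      · change lin (lq j1) e / lin (lq j1) y ≠ lin (lq j) e / lin (lq j) y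
        rw [h5, zero_div]
        exact (div_ne_zero hj (hG.lq_ne j)).symm
      · change lin (lq j1) e / lin (lq j1) y ≠ lin (lq j') e / lin (lq j') y
        rw [h5, zero_div]
        exact (div_ne_zero hj' (hG.lq_ne j')).symm

end Pool.Agent.TH710.KP
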