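import Pool.Agent.TH710.ND.Core
import Pool.Agent.TH710.ND.Fam
import Pool.Agent.TH710.KP.Defs

/-!
Pluricanonical forms from finite families of circuits, with bounds for their poles, and the
dichotomy for pairs: big, or a vector field that kills all ratios.
-/

set_option autoImplicit false

open FF Pool.Agent.W603.LV Pool.Agent.W602.GT Pool.Agent.TH710.ND

namespace Pool.Agent.TH710.KP

variable {k K : Type} [Field k] [Field K] [Algebra k K]

variable {w : ℕ} {I : Type} [Fintype I] {m : I → ℕ} (T : ∀ i, Fin (m i + 1) → K)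

/-- **Pluricanonical forms.** Let `T i` be finitely many circuits over `k`, and `t j` ratios of two
members of circuits which form a transcendence basis of `K`. Then there are
pluricanonical forms of weight `wtI m` with ratios `t j`, regular at all places where the orders of
the members of each circuit are equal, and of order at least `b - wtI m` where two members of some
circuit have orders which differ by `b`. -/
theorem coreB [IsAlgClosed k] [CharZero k] (hw : 0 < w) (hT : ∀ i j, T i j ≠ 0)
    (hsum : ∀ i, ∑ j, T i j = 0)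
    (hlin : ∀ i, LinearIndependent k (fun l => T i ((Fin.last (m i)).succAbove l)))
    (ix : Fin w → I) {x0 x1 : I → K}
    (hx0 : ∀ i, ∃ j, x0 i = T i j) (hx1 : ∀ i, ∃ j, x1 i = T i j)
    (t : Fin w → K) (ht : ∀ j, t j = x1 (ix j) / x0 (ix j))
    (hbasis : IsTranscendenceBasis k t) :
    0 < wtI m ∧ ∃ g : Fin (w + 1) → K, g 0 ≠ 0 ∧ (∀ i : Fin w, g i.succ / g 0 = t i) ∧
      ∀ P : Place k K, ((∀ i j l, P.ord (T i j) = P.ord (T i l)) →
          ∀ j, RegAt P (form t (wtI m) (g j))) ∧
        ∀ i a b, ∀ j, ∀ D : Fin w → Derivation k K K, (∀ i, DerReg P (D i)) →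
          Ge P (|P.ord (T i a) - P.ord (T i b)| - wtI m) (form t (wtI m) (g j) D) := by
  classical
  obtain ⟨lam, hlam⟩ := exists_lam k w
  obtain ⟨D0, hD0⟩ := exists_der t hbasis (fun j => algebraMap k K (lam j) * t j)
  have hx0n : ∀ i, x0 i ≠ 0 := fun i => by
    obtain ⟨j, hj⟩ := hx0 i
    rw [hj]
    exact hT i j
  have hx1n : ∀ i, x1 i ≠ 0 := fun i => by
    obtain ⟨j, hj⟩ := hx1 i
    rw [hj]
    exact hT i j
  have ht0 : ∀ j, t j ≠ 0 := fun j => by
    rw [ht]
    exact div_ne_zero (hx1n _) (hx0n _)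
  have hconst : ∀ h, D0 h = 0 → ∃ c : k, h = algebraMap k K c := fun h hh =>
    const_of_der t hbasis lam hlam D0 hD0 hh
  have heta0 : ∀ i, eta D0 (T i) ≠ 0 := fun i =>
    div_ne_zero (wr_ne hconst _ (hlin i)) (Finset.prod_ne_zero_iff.2 fun j _ => hT i j)
  have hGI0 : ∀ x : I → K, (∀ i, x i ≠ 0) → GI T D0 x ≠ 0 := fun x hx =>
    Finset.prod_ne_zero_iff.2 fun i _ => mul_ne_zero (mul_ne_zero (pow_ne_zero _ (heta0 i))
      (Finset.prod_ne_zero_iff.2 fun j _ => hT i j)) (hx i)
  have hpt : (∏ j, t j) ≠ 0 := Finset.prod_ne_zero_iff.2 fun j _ => ht0 j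
  set N := wtI m with hN
  have hpos : 0 < N := by
    rw [Nat.pos_iff_ne_zero]
    intro h0
    rw [hN, wtI, Finset.sum_eq_zero_iff] at h0
    have h1 := h0 (ix ⟨0, hw⟩) (Finset.mem_univ _)
    have h2 : tn (m (ix ⟨0, hw⟩)) = 0 := by
      rcases Nat.mul_eq_zero.1 h1 with h | h
      · omega
      · exact h
    have h3 : m (ix ⟨0, hw⟩) ≤ 1 := by
      by_contra hcon
      rw [tn, Finset.sum_eq_zero_iff] at h2
      have := h2 ⟨1, by omega⟩ (Finset.mem_univ _)
      simp at this
    obtain ⟨j1, hj1⟩ := hx1 (ix ⟨0, hw⟩)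
    obtain ⟨j0, hj0⟩ := hx0 (ix ⟨0, hw⟩)
    obtain ⟨c, hc⟩ := ratio_const (k := k) h3 (T (ix ⟨0, hw⟩)) (hT _) (hsum _) j1 j0
    rw [← hj1, ← hj0, ← ht] at hc
    have h4 := hbasis.1.transcendental ⟨0, hw⟩
    rw [hc] at h4
    exact h4 (isAlgebraic_algebraMap c)
  let xx : Fin (w + 1) → I → K :=
    Fin.cases x0 fun j => Function.update x0 (ix j) (x1 (ix j))
  have hxx : ∀ j i, ∃ l, xx j i = T i l := by
    intro j
    refine Fin.cases (fun i => hx0 i) (fun j i => ?_) j
    change ∃ l, Function.update x0 (ix j) (x1 (ix j)) i = T i l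
    by_cases hi : i = ix j
    · subst hi
      rw [Function.update_self]
      exact hx1 _
    · rw [Function.update_of_ne hi]
      exact hx0 i
  have hxxn : ∀ j i, xx j i ≠ 0 := fun j i => by
    obtain ⟨l, hl⟩ := hxx j i
    rw [hl]
    exact hT i l
  refine ⟨hpos, fun j => GI T D0 (xx j) / (∏ j, t j) ^ N, div_ne_zero (hGI0 _ (hxxn 0))
    (pow_ne_zero _ hpt), ?_, ?_⟩
  · intro j
    have h1 : GI T D0 (xx j.succ) = GI T D0 (xx 0) * t j := by
      change GI T D0 (Function.update x0 (ix j) (x1 (ix j))) = GI T D0 x0 * t j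
      unfold GI
      rw [← Finset.mul_prod_erase Finset.univ _ (Finset.mem_univ (ix j)),
        ← Finset.mul_prod_erase Finset.univ (fun i => eta D0 (T i) ^ (m i + 2) *
          (∏ j, T i j) * x0 i) (Finset.mem_univ (ix j))]
      have h2 : ∏ x ∈ Finset.univ.erase (ix j), (eta D0 (T x) ^ (m x + 2) * (∏ j, T x j) *
          Function.update x0 (ix j) (x1 (ix j)) x)
          = ∏ x ∈ Finset.univ.erase (ix j), (eta D0 (T x) ^ (m x + 2) * (∏ j, T x j) * x0 x) := by
        refine Finset.prod_congr rfl fun x hx => ?_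
        rw [Function.update_of_ne (Finset.ne_of_mem_erase hx)]
      rw [h2, Function.update_self, ht j]
      have := hx0n (ix j)
      field_simp
    change GI T D0 (xx j.succ) / (∏ j, t j) ^ N / (GI T D0 (xx 0) / (∏ j, t j) ^ N) = t j
    rw [h1]
    have h3 := hGI0 (xx 0) (hxxn 0)
    field_simp
  · intro P
    -- a member of minimal order in each circuit
    have hmin : ∀ i, ∃ b' : Fin (m i + 1), ∀ j, P.ord (T i b') ≤ P.ord (T i j) := fun i =>
      Finite.exists_min _
    choose b' hb' using hmin
    have hkey : ∀ (D : Fin w → Derivation k K K) (x : I → K),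
        GI T D0 x / (∏ j, t j) ^ N * (Matrix.of fun i j => D i (t j)).det ^ N
          = GI T (con t lam D) x := by
      intro D x
      have h1 : con t lam D = (lmat t D).det • D0 := by
        apply der_ext t hbasis
        intro l
        rw [con_t t lam D ht0 l, Derivation.coe_smul, Pi.smul_apply, hD0, smul_eq_mul]
        ring
      have h2 : (Matrix.of fun i j => D i (t j)).det = (∏ j, t j) * (lmat t D).det := by
        rw [← Matrix.det_mul_row]
        congr 1
        ext i j
        simp only [Matrix.of_apply, lmat]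
        have := ht0 j
        field_simp
      rw [h1, GI_smul, h2, mul_pow, ← hN]
      field_simp
    refine ⟨fun hall j D hD => ?_, fun i0 j0 l0 j D hD => ?_⟩
    · unfold form
      rw [hkey, reg_iff_ge]
      have ht0' : ∀ j, P.ord (t j) = 0 := by
        intro j
        obtain ⟨j1, hj1⟩ := hx1 (ix j)
        obtain ⟨j2, hj2⟩ := hx0 (ix j)
        rw [ht, hj1, hj2, P.ord_div (hT _ _) (hT _ _), hall (ix j) j1 j2, sub_self]
      have hE := con_reg t lam D hD ht0 ht0'
      have h1 := ge_GI T (E := con t lam D) hT hb' (ε := 0) (fun i => by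
        rw [zero_mul, sub_zero]
        exact eta_reg hE (hT i) (hsum i) (b' i) (fun j => hall i j _)) (hxx j)
      refine h1.mono ?_
      rw [zero_mul, sub_zero]
      exact Finset.sum_nonneg fun i _ => Finset.sum_nonneg fun j _ => sub_nonneg.2 (hb' i j)
    · unfold form
      rw [hkey]
      have h1 := ge_GI T (E := con t lam D) hT hb' (ε := 1) (fun i => by
        have hE : ∀ x : K, x ≠ 0 → Ge P (-1) (con t lam D x / x) := fun x hx =>
          con_pole t lam D hD ht0 hx
        exact eta_log hE (hT i) (hsum i) (b' i)) (hxx j)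
      refine h1.mono ?_
      rw [one_mul]
      have h5 : ∃ j, |P.ord (T i0 j0) - P.ord (T i0 l0)| ≤ P.ord (T i0 j) - P.ord (T i0 (b' i0)) := by
        have e1 := hb' i0 j0
        have e2 := hb' i0 l0
        rcases abs_cases (P.ord (T i0 j0) - P.ord (T i0 l0)) with ⟨h, -⟩ | ⟨h, -⟩
        · exact ⟨j0, by linarith⟩
        · exact ⟨l0, by linarith⟩
      obtain ⟨j1, h2⟩ := h5
      have h3 : P.ord (T i0 j1) - P.ord (T i0 (b' i0))
          ≤ ∑ i, ∑ j, (P.ord (T i j) - P.ord (T i (b' i))) := by
        refine le_trans ?_ (Finset.single_le_sum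
          (f := fun i => ∑ j, (P.ord (T i j) - P.ord (T i (b' i))))
          (fun i _ => Finset.sum_nonneg fun j _ => sub_nonneg.2 (hb' i j)) (Finset.mem_univ i0))
        exact Finset.single_le_sum (f := fun j => P.ord (T i0 j) - P.ord (T i0 (b' i0)))
          (fun j _ => sub_nonneg.2 (hb' i0 j)) (Finset.mem_univ j1)
      linarith

/-- **The dichotomy.** -/
theorem fam_dichB [IsAlgClosed k] [CharZero k] {w : ℕ} (hw : 0 < w) (htr : Algebra.trdeg k K = w)
    (Bd : Place k K → Prop) {N s c : ℕ} (hN : w * (c * ((s + 1) * tn (s - 1))) ≤ N)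
    (G : CFam k K → Prop) (hG : ∀ A, G A → A.Ok Bd N s c)
    {X : Place k K → Prop} {δ : Place k K → ℝ} (hδ : ∀ P, Divisorial w P → X P → 0 ≤ δ P)
    (hδ1 : ∀ P, Divisorial w P → X P → Bd P → 1 - 1 / (N : ℝ) ≤ δ P) :
    PairBig k K w X δ ∨ ∃ D : Derivation k K K, D ≠ 0 ∧
      ∀ A : CFam k K, G A → ∀ i a b, D (A.T i a / A.T i b) = 0 := by
  classical
  let S : Set K := {x | ∃ A : CFam k K, G A ∧ ∃ i a b, x = A.T i a / A.T i b}
  obtain ⟨x0, hx0⟩ := basis_of_trdeg htr
  by_cases halg : Algebra.IsAlgebraic (IntermediateField.adjoin k S) K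
  · left
    have halg' := alg_adjoin halg
    obtain ⟨B, hB, hBb⟩ := exists_isTranscendenceBasis_subset (R := k) (A := K) S
    have hcard := hx0.lift_cardinalMk_eq hBb
    rw [Cardinal.mk_fin] at hcard
    obtain ⟨φ⟩ : Nonempty (Fin w ≃ B) := by
      rw [← Cardinal.eq, Cardinal.mk_fin]
      have := hcard
      simpa using this
    set t : Fin w → K := fun i => (φ i : K) with ht
    have htb : IsTranscendenceBasis k t := hBb.comp_equiv φ
    have hmem : ∀ i, t i ∈ S := fun i => hB (φ i).2
    choose A hA i a b hab using hmem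
    let F : CFam k K := CFam.sigma A
    have hF : F.Ok Bd N s (∑ _j : Fin w, c) := CFam.sigma_ok fun j => hG _ (hA j)
    let _ : Fintype F.I := F.fin
    let y0 : F.I → K := fun x => if x.2 = i x.1 then (A x.1).T (i x.1) (b x.1) else F.T x 0
    let y1 : F.I → K := fun x => if x.2 = i x.1 then (A x.1).T (i x.1) (a x.1) else F.T x 0
    have hy0 : ∀ x, ∃ j, y0 x = F.T x j := by
      rintro ⟨j, x⟩
      by_cases hx : x = i j
      · subst hx
        refine ⟨b j, ?_⟩
        simp only [y0, if_true]
        rfl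
      · exact ⟨0, by simp only [y0]; rw [if_neg hx]⟩
    have hy1 : ∀ x, ∃ j, y1 x = F.T x j := by
      rintro ⟨j, x⟩
      by_cases hx : x = i j
      · subst hx
        refine ⟨a j, ?_⟩
        simp only [y1, if_true]
        rfl
      · exact ⟨0, by simp only [y1]; rw [if_neg hx]⟩
    obtain ⟨hpos, g', h0, h1, h2⟩ := coreB (m := F.m) F.T hw F.ne F.sum F.lin
      (fun j => (⟨j, i j⟩ : F.I)) hy0 hy1 t (fun j => by
        simp only [y0, y1, if_true]
        exact hab j) htb
    have hwt : wtI F.m ≤ N := by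
      refine le_trans ?_ hN
      unfold wtI
      calc ∑ x, (F.m x + 2) * tn (F.m x) ≤ ∑ _x : F.I, (s + 1) * tn (s - 1) := by
            refine Finset.sum_le_sum fun x _ => ?_
            have h3 := hF.sz x
            exact Nat.mul_le_mul (by omega) (tn_mono (by omega))
        _ = Fintype.card F.I * ((s + 1) * tn (s - 1)) := by simp
        _ ≤ (w * c) * ((s + 1) * tn (s - 1)) := by
            refine Nat.mul_le_mul_right _ ?_
            have h3 := hF.card
            simpa using h3
        _ = w * (c * ((s + 1) * tn (s - 1))) := by ring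
    have hNpos : 0 < N := lt_of_lt_of_le hpos hwt
    refine ⟨wtI F.m, hpos, fun j => form t (wtI F.m) (g' j), fun j => ⟨form_pluri t _ (g' j),
      fun P hPd hPX D hD => ?_⟩, ?_⟩
    · have key : form t (wtI F.m) (g' j) D = 0 ∨
          -(wtI F.m * δ P) ≤ (P.ord (form t (wtI F.m) (g' j) D) : ℝ) := by
        have hw0 : (0 : ℝ) ≤ wtI F.m := by positivity
        have hreg : ∀ r : ℤ, 0 ≤ r → Ge P r (form t (wtI F.m) (g' j) D) →
            form t (wtI F.m) (g' j) D = 0 ∨
            -(wtI F.m * δ P) ≤ (P.ord (form t (wtI F.m) (g' j) D) : ℝ) := by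
          rintro r hr (h | h)
          · exact Or.inl h
          · right
            have h3 : (0 : ℝ) ≤ P.ord (form t (wtI F.m) (g' j) D) := by exact_mod_cast hr.trans h
            have h4 := mul_nonneg hw0 (hδ P hPd hPX)
            linarith
        by_cases hc : F.Const P
        · exact hreg 0 le_rfl ((h2 P).1 hc j D hD)
        · by_cases hb : Bd P
          · have hc' := hc
            unfold CFam.Const at hc'
            push Not at hc'
            obtain ⟨i, a, b, hne⟩ := hc'
            have h3 := (h2 P).2 i a b j D hD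
            have h4 : (1 : ℤ) ≤ |P.ord (F.T i a) - P.ord (F.T i b)| :=
              Int.one_le_abs (sub_ne_zero.2 hne)
            rcases h3 with h3 | h3
            · exact Or.inl h3
            · right
              have h5 : (1 : ℝ) - wtI F.m ≤ P.ord (form t (wtI F.m) (g' j) D) := by
                have : (1 : ℤ) - wtI F.m ≤ P.ord (form t (wtI F.m) (g' j) D) := by linarith
                exact_mod_cast this
              have h6 := hδ1 P hPd hPX hb
              have h7 : (wtI F.m : ℝ) * (1 / N) ≤ 1 := by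
                rw [mul_one_div, div_le_one (by exact_mod_cast hNpos)]
                exact_mod_cast hwt
              have h8 := mul_le_mul_of_nonneg_left h6 hw0
              nlinarith
          · obtain ⟨i, a, b, h⟩ := (hF.dich P hb).resolve_left hc
            refine hreg _ ?_ ((h2 P).2 i a b j D hD)
            have h3 : (wtI F.m : ℤ) ≤ N := by exact_mod_cast hwt
            linarith
      rcases key with h | h
      · exact Or.inl h
      · refine Or.inr ⟨1, Finset.mem_singleton_self _, one_ne_zero, ?_⟩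
        rw [Nat.cast_zero, zero_mul, zero_sub]
        exact h
    · obtain ⟨D, hD⟩ := exists_dual htb
      have hf : ∀ j, form t (wtI F.m) (g' j) D = g' j := fun j => by
        unfold form
        rw [hD, Matrix.det_one, one_pow, mul_one]
      refine ⟨D, by change form t (wtI F.m) (g' 0) D ≠ 0; rw [hf]; exact h0, ?_⟩
      simp only [hf, h1]
      exact htb.1
  · right
    obtain ⟨D, hD0, hD⟩ := exists_der_over S halg
    exact ⟨D, hD0, fun A hA i a b => hD _ ⟨A, hA, i, a, b, rfl⟩⟩

end Pool.Agent.TH710.KP
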